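import Pool.Agent.H601R2.SixthLocal

set_option autoImplicit false

/-!
Unconditional lower bound for the sixth moment of zeta on `[T, (1+δ)T]`, `δ > 0` arbitrary.
-/

open Filter

/-- For every `δ > 0` the average of `|ζ(1/2+it)|^6` over `[T, (1+δ)T]` is at least
`34.4 (a_3/9!) (log T)^9` for all large `T`. -/
theorem Pool.Agent.Results.MP_39df77_nt.ShortWindows.result (δ : ℝ) (hδ : 0 < δ) :
    ∀ᶠ T : ℝ in atTop,
      34.4 * (∏' p : Nat.Primes, ((1 - 1 / (p : ℝ)) ^ 9 *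
          ∑' m : ℕ, ((m + 2).choose 2 : ℝ) ^ 2 * (1 / (p : ℝ)) ^ m)) / (Nat.factorial 9 : ℝ) *
        Real.log T ^ 9 ≤
      1 / (δ * T) * ∫ t in T..((1 + δ) * T), ‖riemannZeta (1 / 2 + t * Complex.I)‖ ^ 6 := by
  filter_upwards [Pool.Agent.H601R2.SixthLocal.sixth_local_aux δ hδ, eventually_gt_atTop 0]
    with T hT hT0
  rw [Pool.Agent.H601R2.SixthLocal.aF3] at hT
  have hδT : 0 < δ * T := by positivity
  rw [one_div (δ * T), ← div_eq_inv_mul, le_div_iff₀ hδT]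
  linarith
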